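import Mathlib

set_option autoImplicit false
set_option maxHeartbeats 400000

open Filter Topology Set Real

namespace Pool.Agent.Results.MP_913ab3_an.Increasing

/-- the alternating series, with `y = arcosh r` -/
noncomputable def S (r : ℝ) : ℝ :=
  ∑' k : ℕ, (-1) ^ k * (sinh (arcosh r) / sinh ((k + 1) * arcosh r))

noncomputable def f (x : ℝ) : ℝ := 1 / (1 + exp x)

theorem f0 (x : ℝ) : 0 < f x := by unfold f; positivity

theorem swap {y : ℝ} (hy : 0 < y) : HasSum (fun j : ℕ => 2 * (sinh y * f ((2 * j + 1) * y)))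
    (∑' k : ℕ, (-1) ^ k * (sinh y / sinh ((k + 1) * y))) := by
  have p0 := exp_pos (-y)
  have p1 : exp (-y) < 1 := exp_lt_one_iff.2 (by linarith)
  set p := exp (-y) with hp
  have g := summable_geometric_of_lt_one p0.le p1
  have hs : Summable (Function.uncurry fun k j : ℕ => (-1 : ℝ) ^ k * p ^ ((k + 1) * (2 * j + 1))) := by
    refine .of_norm_bounded (g.mul_of_nonneg g (fun _ => by positivity) fun _ => by positivity) ?_
    rintro ⟨k, j⟩
    simp only [Function.uncurry, norm_mul, norm_pow, norm_neg, norm_one, one_pow, one_mul,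
      Real.norm_of_nonneg p0.le, ← pow_add]
    exact pow_le_pow_of_le_one p0.le p1.le (by nlinarith)
  have pn : ∀ n : ℕ, p ^ (n + 1) < 1 := fun n => pow_lt_one₀ p0.le p1 n.succ_ne_zero
  have a : ∀ j : ℕ, ∑' k : ℕ, (-1 : ℝ) ^ k * p ^ ((k + 1) * (2 * j + 1)) = f ((2 * j + 1) * y) := by
    intro j
    have e : exp ((2 * j + 1) * y) = (p ^ (2 * j + 1))⁻¹ := by
      rw [hp, ← exp_nat_mul, ← exp_neg]; congr 1; push_cast; ring
    have q0 : 0 < p ^ (2 * j + 1) := by positivity
    have := tsum_geometric_of_abs_lt_one (r := -p ^ (2 * j + 1))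
      (by rw [abs_neg, abs_of_pos q0]; exact pn _)
    rw [f, e, tsum_congr (g := fun k => p ^ (2 * j + 1) * (-p ^ (2 * j + 1)) ^ k) fun k => by
      rw [neg_pow (p ^ _), mul_comm (k + 1), pow_mul]; ring, tsum_mul_left, this, sub_neg_eq_add]
    generalize p ^ (2 * j + 1) = q at *
    field_simp; ring
  have b : ∀ k : ℕ, ∑' j : ℕ, (-1 : ℝ) ^ k * p ^ ((k + 1) * (2 * j + 1)) =
      (-1) ^ k / (2 * sinh ((k + 1) * y)) := by
    intro k
    have e : exp (-((k + 1) * y)) = p ^ (k + 1) := by
      rw [hp, ← exp_nat_mul]; congr 1; push_cast; ring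
    have q0 : 0 < p ^ (k + 1) := by positivity
    have q1 := pn k
    have q2 : (p ^ (k + 1)) ^ 2 < 1 := by nlinarith
    have := tsum_geometric_of_lt_one (r := (p ^ (k + 1)) ^ 2) (by positivity) q2
    rw [tsum_congr (g := fun j => (-1) ^ k * p ^ (k + 1) * ((p ^ (k + 1)) ^ 2) ^ j) fun j => by
      rw [pow_mul, ← pow_mul (p ^ (k + 1))]; ring, tsum_mul_left, this, sinh_eq,
      ← inv_inv (exp ((k + 1) * y)), ← exp_neg, e]
    generalize p ^ (k + 1) = q at *
    have : 1 - q ^ 2 ≠ 0 := by linarith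
    have : q⁻¹ - q = (1 - q ^ 2) / q := by field_simp
    rw [this]; field_simp
  have c := hs.tsum_comm
  have d := hs.prod_symm.prod
  simp only [Function.uncurry, Prod.fst_swap, Prod.snd_swap, a, b] at c d
  have := d.hasSum.mul_left (2 * sinh y)
  rw [c, ← tsum_mul_left] at this
  simp only [mul_assoc] at this
  rwa [tsum_congr (g := fun k : ℕ => 2 * (sinh y * ((-1) ^ k / (2 * sinh ((k + 1) * y))))) fun k => by
    generalize sinh ((k + 1) * y) = w; ring]

theorem th {y : ℝ} (hy : 0 < y) (m : ℕ) : cosh y * sinh (m * y) ≤ m * sinh y * cosh (m * y) ∧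
    (2 ≤ m → cosh y * sinh (m * y) < m * sinh y * cosh (m * y)) := by
  induction m with
  | zero => simp
  | succ m ih =>
    have s := sinh_pos_iff.2 hy
    have c := cosh_pos y
    have e : ((m + 1 : ℕ) : ℝ) * y = m * y + y := by push_cast; ring
    rw [e, sinh_add, cosh_add]; push_cast
    have i := mul_le_mul_of_nonneg_left ih.1 c.le
    refine ⟨?_, fun h => ?_⟩
    · have : 0 ≤ sinh (m * y) := sinh_nonneg_iff.2 (by positivity)
      have : 0 ≤ (m + 1) * sinh y * (sinh (m * y) * sinh y) := by positivity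
      nlinarith
    · have : 0 < m := by omega
      have : 0 < sinh (m * y) := sinh_pos_iff.2 (by positivity)
      have : 0 < (m + 1) * sinh y * (sinh (m * y) * sinh y) := by positivity
      nlinarith

noncomputable def h (m y : ℝ) : ℝ :=
  cosh y * f (m * y) - sinh y * (m * exp (m * y) / (1 + exp (m * y)) ^ 2)

theorem dh (m y : ℝ) : HasDerivAt (fun y => sinh y * f (m * y)) (h m y) y := by
  have := (hasDerivAt_sinh y).mul ((((hasDerivAt_id y).const_mul m).exp.const_add 1).inv
    (by positivity))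
  simp only [f, h, one_div]
  refine this.congr_deriv ?_
  simp; ring

noncomputable def E (m y : ℝ) : ℝ := 2 * exp (m * y) ^ 2 * (cosh y - 1) *
  (m * sinh y * cosh (m * y) - cosh y * sinh (m * y)) /
    ((1 + exp (m * y) * exp y) * (1 + exp (m * y) / exp y) * (1 + exp (m * y)) ^ 2)

theorem hE (m y : ℝ) : h m y = E m y +
    cosh y / 2 * ((m + 1) * f ((m + 1) * y) - (m - 1) * f ((m - 1) * y)) := by
  simp only [h, E, f, cosh_eq, sinh_eq, add_mul, sub_mul, one_mul, exp_add, exp_sub, exp_neg]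
  have := exp_pos y
  have := exp_pos (m * y)
  generalize exp (m * y) = u at *
  generalize exp y = v at *
  field_simp; ring

theorem E0 {y : ℝ} (hy : 0 < y) (m : ℕ) : 0 ≤ E m y ∧ (2 ≤ m → 0 < E m y) := by
  have := sub_pos.2 (one_lt_cosh.2 hy.ne')
  have := sub_nonneg.2 (th hy m).1
  refine ⟨by unfold E; positivity, fun k => ?_⟩
  have := sub_pos.2 ((th hy m).2 k)
  unfold E; positivity

theorem sum {y : ℝ} (hy : 0 < y) (N : ℕ) : E 3 y + cosh y / 2 * ((2 * (N + 2)) * f (2 * (N + 2) * y)) ≤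
    ∑ j ∈ Finset.range (N + 2), h (2 * j + 1) y := by
  induction N with
  | zero =>
    have := (E0 hy 1).1
    simp only [zero_add, Finset.sum_range_succ, Finset.sum_range_zero, hE]
    norm_num at this ⊢; linarith
  | succ N ih =>
    have := (E0 hy (2 * (N + 2) + 1)).1
    rw [show N + 1 + 2 = N + 2 + 1 from rfl, Finset.sum_range_succ, hE]
    push_cast at this ⊢
    rw [show 2 * ((N : ℝ) + 2) + 1 + 1 = 2 * (N + 1 + 2) by ring, add_sub_cancel_right]
    linarith

theorem lt {a b : ℝ} (ha : 0 < a) (ab : a < b) :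
    ∑' k : ℕ, (-1) ^ k * (sinh a / sinh ((k + 1) * a)) <
      ∑' k : ℕ, (-1) ^ k * (sinh b / sinh ((k + 1) * b)) := by
  have cE : Continuous (E 3) := by
    unfold E; refine Continuous.div (by fun_prop) (by fun_prop (disch := intros; positivity)) fun _ => by positivity
  obtain ⟨z, hz, mz⟩ := isCompact_Icc.exists_isMinOn (nonempty_Icc.2 ab.le) cE.continuousOn
  have z0 : 0 < E 3 z := by exact_mod_cast (E0 (ha.trans_le hz.1) 3).2 (by norm_num)
  have key : ∀ N : ℕ, E 3 z * (b - a) ≤ ∑ j ∈ Finset.range (N + 2), sinh b * f ((2 * j + 1) * b) -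
      ∑ j ∈ Finset.range (N + 2), sinh a * f ((2 * j + 1) * a) := fun N => by
    have d := fun y => HasDerivAt.fun_sum (u := Finset.range (N + 2)) fun (j : ℕ) _ => dh (2 * j + 1) y
    refine (convex_Icc a b).mul_sub_le_image_sub_of_le_deriv
      (fun y _ => (d y).continuousAt.continuousWithinAt)
      (fun y _ => (d y).differentiableAt.differentiableWithinAt) (fun y hy => ?_) a
      (left_mem_Icc.2 ab.le) b (right_mem_Icc.2 ab.le) ab.le
    have hy := interior_subset hy
    have := sum (ha.trans_le hy.1) N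
    have := f0 (2 * (N + 2) * y)
    have : 0 ≤ cosh y / 2 * ((2 * (N + 2)) * f (2 * (N + 2) * y)) := by
      have := cosh_pos y; positivity
    have : E 3 z ≤ E 3 y := mz hy
    rw [(d y).deriv]; linarith
  have t := ((swap (ha.trans ab)).tendsto_sum_nat.sub (swap ha).tendsto_sum_nat).comp
    (tendsto_add_atTop_nat 2)
  have := ge_of_tendsto' (b := 2 * (E 3 z * (b - a))) t fun N => by
    have := key N
    simp only [Function.comp, ← Finset.mul_sum] at this ⊢; linarith
  have : 0 < E 3 z * (b - a) := mul_pos z0 (sub_pos.2 ab)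
  linarith

theorem result : ∃ L, Tendsto S (𝓝[>] 1) (𝓝 L) ∧ (∀ r, 1 < r → L < S r) ∧
    ∀ r r', 1 < r → r < r' → S r < S r' := by
  have m : ∀ r r', 1 < r → r < r' → S r < S r' := fun r r' a b =>
    lt (arcosh_pos a) ((arcosh_lt_arcosh (by linarith) (by linarith)).2 b)
  have bd : BddBelow (S '' Ioi 1) := ⟨0, by
    rintro _ ⟨r, hr, rfl⟩
    have a := arcosh_pos hr
    exact (swap a).nonneg fun j => by
      have := sinh_pos_iff.2 a
      have := f0 ((2 * j + 1) * arcosh r)
      positivity⟩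
  have sm : StrictMonoOn S (Ioi 1) := fun a ha b _ h => m a b ha h
  refine ⟨_, sm.monotoneOn.tendsto_nhdsGT bd, fun r hr => ?_, m⟩
  exact (csInf_le bd ⟨(1 + r) / 2, by simp; linarith, rfl⟩).trans_lt
    (m _ _ (by linarith) (by linarith))

end Pool.Agent.Results.MP_913ab3_an.Increasing
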